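import Mathlib
import Pool.Agent.Lib.MP_98d06d_al.Aut
import Pool.Agent.Lib.MP_98d06d_al.Quot

/-!
Every partially ordered group whose order is an intersection of right orders has an
order-embedding into a lattice-ordered group that preserves all existing suprema and infima.
-/

set_option autoImplicit false

namespace Pool.Agent.Results.MP_98d06d_al.Embedding

open Pool.Agent.Lib.MP_98d06d_al

universe u v

/-- Let `G` be a partially ordered group whose order is the intersection of a family of right
orders `r i`.  Then there are an l-group `H` and an order-embedding `φ : G → H` preserving every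
supremum and every infimum that exists in `G`. -/
theorem result (G : Type u) [Group G] [PartialOrder G]
    (hl : ∀ a b c : G, a ≤ b → c * a ≤ c * b) (hr : ∀ a b c : G, a ≤ b → a * c ≤ b * c)
    (ι : Type v) (r : ι → G → G → Prop) (hlin : ∀ i, IsLinearOrder G (r i))
    (hright : ∀ (i : ι) (a b c : G), r i a b → r i (a * c) (b * c))
    (hint : ∀ a b : G, a ≤ b ↔ ∀ i, r i a b) :
    ∃ (H : Type u) (_ : Group H) (_ : Lattice H),
      (∀ a b c : H, a ≤ b → c * a ≤ c * b) ∧ (∀ a b c : H, a ≤ b → a * c ≤ b * c) ∧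
      ∃ φ : G →* H, Function.Injective φ ∧ (∀ a b : G, a ≤ b ↔ φ a ≤ φ b) ∧
        (∀ (S : Set G) (s : G), IsLUB S s → IsLUB (φ '' S) (φ s)) ∧
        (∀ (S : Set G) (s : G), IsGLB S s → IsGLB (φ '' S) (φ s)) := by
  have : MulLeftMono G := ⟨fun c a b h => hl a b c h⟩
  have : MulRightMono G := ⟨fun c a b h => hr a b c h⟩
  obtain ⟨K, _, _, _, _, ψ, hψ⟩ := exists_embedding G ι r hlin hright hint
  have : MulLeftMono (cone ψ hψ).Q := ⟨fun c a b h => (cone ψ hψ).mul_le_left a b c h⟩
  have : MulRightMono (cone ψ hψ).Q := ⟨fun c a b h => (cone ψ hψ).mul_le_right a b c h⟩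
  refine ⟨(cone ψ hψ).Q, inferInstance, inferInstance, (cone ψ hψ).mul_le_left,
    (cone ψ hψ).mul_le_right, emb ψ hψ, fun a b h => ?_, emb_le ψ hψ, fun S s hS => ?_,
    emb_isGLB ψ hψ⟩
  · exact le_antisymm ((emb_le ψ hψ _ _).2 h.le) ((emb_le ψ hψ _ _).2 h.ge)
  · have h1 : IsGLB {x : G | x⁻¹ ∈ S} s⁻¹ := by
      constructor
      · intro x hx
        exact inv_le_iff_one_le_mul.2 (by simpa using mul_le_mul_right (hS.1 hx) x)
      · intro y hy
        have : s ≤ y⁻¹ := hS.2 fun t ht => by
          have := hy (a := t⁻¹) (by simpa using ht)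
          exact le_inv'.1 this
        exact le_inv'.1 this
    have h2 := emb_isGLB ψ hψ _ _ h1
    constructor
    · rintro _ ⟨t, ht, rfl⟩
      exact (emb_le ψ hψ _ _).1 (hS.1 ht)
    · intro q hq
      have : q⁻¹ ≤ emb ψ hψ s⁻¹ := h2.2 (by
        rintro _ ⟨t, ht, rfl⟩
        have := hq ⟨t⁻¹, ht, rfl⟩
        rw [map_inv] at this
        exact inv_le'.1 this)
      rw [map_inv] at this
      exact inv_le_inv_iff.1 this

end Pool.Agent.Results.MP_98d06d_al.Embedding
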